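import Pool.Agent.Helper732.SInf.Hard

/-!
Continuous injective homomorphisms suffice in the lower bound for topological isomorphism of
closed subgroups of `S_∞`; the groups used are abelian and topologically torsion.
-/

set_option autoImplicit false

open Set Filter Topology MeasureTheory TopologicalSpace

namespace Pool.Agent.Y403.SI

open Pool.Agent.Helper732.SInf

universe u

/-- There is a continuous injective homomorphism from `G` to `H`. -/
def ContInj (G H : ClosedSub) : Prop :=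
  ∃ φ : G.1 →* H.1, Continuous φ ∧ Function.Injective φ

/-- The group is abelian. -/
def IsAbelian (G : ClosedSub) : Prop := ∀ σ τ : G.1, σ * τ = τ * σ

/-- The group is topologically torsion: `g ^ (n!)` tends to the identity for all `g`. -/
def IsTopTorsion (G : ClosedSub) : Prop :=
  ∀ g : G.1, Tendsto (fun n : ℕ => g ^ n.factorial) atTop (𝓝 1)

theorem contInj_of_topIso {G H : ClosedSub} (h : TopIso G H) : ContInj G H := by
  obtain ⟨φ, hφ, -⟩ := h
  exact ⟨φ.toMonoidHom, hφ, φ.injective⟩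

theorem of_contInj {P Q : Set Idx} (h : ContInj (HC P) (HC Q)) : ∃ T : GP P →+ GP Q,
    Function.Injective T ∧ ∀ i, ∃ j, ∀ g : GP P, g.1 ∈ NN j → (T g).1 ∈ NN i := by
  obtain ⟨φ, hφ, hinj⟩ := h
  change HH P →* HH Q at φ
  let ψ : Multiplicative (GP P) →* Multiplicative (GP Q) :=
    (eP Q).symm.toMonoidHom.comp (φ.comp (eP P).toMonoidHom)
  have hψ : Function.Injective ψ := by
    intro a b hab
    exact (eP P).injective (hinj ((eP Q).symm.injective hab))
  let T : GP P →+ GP Q :=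
    { toFun := fun g => (ψ (Multiplicative.ofAdd g)).toAdd
      map_zero' := by
        have : Multiplicative.ofAdd (0 : GP P) = 1 := rfl
        rw [this, map_one]
        rfl
      map_add' := fun g h => by
        have : Multiplicative.ofAdd (g + h) = Multiplicative.ofAdd g * Multiplicative.ofAdd h := rfl
        rw [this, map_mul]
        rfl }
  have hT : ∀ g : GP P, φ (eP P (Multiplicative.ofAdd g)) = eP Q (Multiplicative.ofAdd (T g)) := by
    intro g
    have : Multiplicative.ofAdd (T g) = ψ (Multiplicative.ofAdd g) := rfl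
    rw [this]
    simp [ψ]
  refine ⟨T, ?_, ?_⟩
  · intro g h hgh
    have h1 : Multiplicative.ofAdd (T g) = Multiplicative.ofAdd (T h) := by rw [hgh]
    exact Multiplicative.ofAdd.injective (hψ h1)
  · intro i
    have hopen : IsOpen {σ : HH P | ((φ σ : HH Q) : Equiv.Perm ℕ) (en ⟨i, 0⟩) = en ⟨i, 0⟩} :=
      (isOpen_agree _ _).preimage (continuous_subtype_val.comp hφ)
    obtain ⟨U, hU, hUe⟩ := isOpen_induced_iff.1 hopen
    have h1 : (1 : Equiv.Perm ℕ) ∈ U := by
      have : (1 : HH P) ∈ Subtype.val ⁻¹' U := by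
        rw [hUe]
        simp
      exact this
    obtain ⟨S, hS⟩ := exists_finset hU h1
    obtain ⟨j, hj⟩ := exists_lev S
    refine ⟨j, fun g hg => ?_⟩
    have h2 : (eP P (Multiplicative.ofAdd g) : HH P) ∈ (Subtype.val ⁻¹' U : Set (HH P)) := by
      refine hS _ fun n hn => ?_
      rw [eP_val, toAdd_ofAdd, ← toPerm_zero]
      exact toPerm_eq_of_lev (hj n hn) (by rwa [sub_zero])
    rw [hUe] at h2
    have h3 : ((φ (eP P (Multiplicative.ofAdd g)) : HH Q) : Equiv.Perm ℕ) (en ⟨i, 0⟩) = en ⟨i, 0⟩ := h2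
    rw [hT, eP_val, toAdd_ofAdd] at h3
    have h4 : toPerm (T g).1 (en ⟨i, 0⟩) = toPerm 0 (en ⟨i, 0⟩) := by
      rw [h3, toPerm_zero]; rfl
    have := toPerm_eq_iff.1 h4
    rwa [sub_zero] at this

theorem isAbelian_HC (P : Set Idx) : IsAbelian (HC P) := by
  intro σ τ
  change HH P at σ τ
  obtain ⟨g, rfl⟩ := (eP P).surjective σ
  obtain ⟨h, rfl⟩ := (eP P).surjective τ
  have h1 : eP P g * eP P h = eP P h * eP P g := by rw [← map_mul, ← map_mul, mul_comm]
  exact h1

/-- a multiple of each element is in the `i`-th basic subgroup -/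
theorem exists_multiple (g : GG) (i : ℕ) : ∃ m : ℕ, 0 < m ∧ m • g ∈ NN i := by
  classical
  set S := (g.2.2 i).toFinset with hS
  refine ⟨∏ p ∈ S, ell p.k p.v ^ p.k, Finset.prod_pos fun p _ => pow_pos (ell_prime _ _).pos _, ?_⟩
  intro p
  have h0 : ((∏ p ∈ S, ell p.k p.v ^ p.k) • g).1 p = (∏ p ∈ S, ell p.k p.v ^ p.k) • g.1 p := rfl
  rw [h0]
  by_cases hp : p.q i • g.1 p = 0
  · rw [smul_comm, hp, smul_zero]
  · have h1 : p ∈ S := by rw [hS, Set.Finite.mem_toFinset]; exact hp
    obtain ⟨d, hd⟩ := Finset.dvd_prod_of_mem (fun p : Idx => ell p.k p.v ^ p.k) h1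
    have h2 : (∏ p ∈ S, ell p.k p.v ^ p.k) • g.1 p = 0 := by
      rw [hd, mul_comm, mul_smul, g.2.1 p, smul_zero]
    rw [h2, smul_zero]

theorem isTopTorsion_HC (P : Set Idx) : IsTopTorsion (HC P) := by
  intro σ
  change HH P at σ
  obtain ⟨g, rfl⟩ := (eP P).surjective σ
  rw [tendsto_iff_forall_eventually_mem]
  intro U hU
  obtain ⟨V, hVU, hV, h1V⟩ := mem_nhds_iff.1 hU
  obtain ⟨W, hW, rfl⟩ := isOpen_induced_iff.1 hV
  obtain ⟨S, hS⟩ := exists_finset hW (show (1 : Equiv.Perm ℕ) ∈ W from h1V)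
  obtain ⟨i, hi⟩ := exists_lev S
  obtain ⟨m, hm, hmi⟩ := exists_multiple g.toAdd.1 i
  filter_upwards [eventually_ge_atTop m] with n hn
  apply hVU
  refine hS _ fun k hk => ?_
  have h2 : n.factorial • g.toAdd.1 ∈ NN i := by
    obtain ⟨d, hd⟩ := Nat.dvd_factorial hm hn
    rw [hd, mul_comm, mul_smul]
    exact (NN i).nsmul_mem hmi d
  have h3 : (((eP P g) ^ n.factorial : HH P) : Equiv.Perm ℕ) = toPerm (n.factorial • g.toAdd.1) := by
    rw [← map_pow, eP_val]
    rfl
  have h4 : toPerm (n.factorial • g.toAdd.1) k = toPerm 0 k :=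
    toPerm_eq_of_lev (hi k hk) (by rwa [sub_zero])
  rw [toPerm_zero] at h4
  calc (((eP P g) ^ n.factorial : HH P) : Equiv.Perm ℕ) k
      = toPerm (n.factorial • g.toAdd.1) k := by rw [h3]
    _ = (1 : Equiv.Perm ℕ) k := h4

theorem rel_of_contInj {f : (ℕ → ℕ) → (ℕ → Bool) × (ℕ → Bool)} (hf : Continuous f)
    (E : (ℕ → Bool) → (ℕ → Bool) → Prop) (hE : Equivalence E)
    (hfE : ∀ γ, E (f γ).1 (f γ).2) {x y : ℕ → Bool} (h : ContInj (HC (PX f x)) (HC (PX f y))) :
    E y x := by
  obtain ⟨T, hinj, hT⟩ := of_contInj h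
  choose J hJ using hT
  exact limit hf E hE hfE J x y fun k hk => bounded_of_hom T hinj J hJ k (by omega)

theorem cantor_case (E : (ℕ → Bool) → (ℕ → Bool) → Prop) (hE : Equivalence E)
    (hA : AnalyticSet {p : (ℕ → Bool) × (ℕ → Bool) | E p.1 p.2}) :
    ∃ r : (ℕ → Bool) → ClosedSub, Measurable r ∧ (∀ x, IsAbelian (r x) ∧ IsTopTorsion (r x)) ∧
      (∀ x y, E x y → TopIso (r x) (r y)) ∧ ∀ x y, ContInj (r x) (r y) → E x y := by
  rw [AnalyticSet] at hA
  rcases hA with h | ⟨f, hf, hr⟩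
  · exfalso
    have : ((fun _ => true, fun _ => true) : (ℕ → Bool) × (ℕ → Bool)) ∈
        {p : (ℕ → Bool) × (ℕ → Bool) | E p.1 p.2} := hE.refl _
    rw [h] at this
    exact this
  · have hfE : ∀ γ, E (f γ).1 (f γ).2 := by
      intro γ
      have : f γ ∈ {p : (ℕ → Bool) × (ℕ → Bool) | E p.1 p.2} := by
        rw [← hr]; exact ⟨γ, rfl⟩
      exact this
    refine ⟨fun x => HC (PX f x), measurable_HC f,
      fun x => ⟨isAbelian_HC _, isTopTorsion_HC _⟩, fun x y hxy => ?_, fun x y h => ?_⟩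
    · have : (x, y) ∈ Set.range f := by rw [hr]; exact hxy
      obtain ⟨γ, hγ⟩ := this
      have h := topIso_of_rel (f := f) γ
      rw [hγ] at h
      exact h
    · exact hE.symm (rel_of_contInj hf E hE hfE h)

/-- Every relation between topological isomorphism and continuous injectability is analytic
hard, on every class which contains the abelian topologically torsion closed subgroups. -/
theorem analyticHard_of_between (C : Set ClosedSub)
    (hC : ∀ G, IsAbelian G → IsTopTorsion G → G ∈ C)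
    (R : {G : ClosedSub // G ∈ C} → {G : ClosedSub // G ∈ C} → Prop)
    (h1 : ∀ G H, TopIso G.1 H.1 → R G H) (h2 : ∀ G H, R G H → ContInj G.1 H.1) :
    AnalyticHard.{u} R := by
  intro X _ _ F hF hFA
  obtain ⟨e, he, hinj⟩ := MeasurableSpace.measurable_injection_nat_bool_of_countablySeparated X
  let E : (ℕ → Bool) → (ℕ → Bool) → Prop := fun u v => u = v ∨ ∃ x y, e x = u ∧ e y = v ∧ F x y
  have hE : Equivalence E := by
    refine ⟨fun u => Or.inl rfl, ?_, ?_⟩
    · rintro u v (h | ⟨x, y, h1, h2, h3⟩)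
      · exact Or.inl h.symm
      · exact Or.inr ⟨y, x, h2, h1, hF.symm h3⟩
    · rintro u v w (rfl | ⟨x, y, h1, h2, h3⟩) (rfl | ⟨x', y', h1', h2', h3'⟩)
      · exact Or.inl rfl
      · exact Or.inr ⟨x', y', h1', h2', h3'⟩
      · exact Or.inr ⟨x, y, h1, h2, h3⟩
      · have : y = x' := hinj (h2.trans h1'.symm)
        subst this
        exact Or.inr ⟨x, y', h1, h2', hF.trans h3 h3'⟩
  have hEF : ∀ x y, F x y ↔ E (e x) (e y) := by
    intro x y
    constructor
    · intro h
      exact Or.inr ⟨x, y, rfl, rfl, h⟩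
    · rintro (h | ⟨x', y', h1, h2, h3⟩)
      · rw [hinj h]
        exact hF.refl _
      · rw [← hinj h1, ← hinj h2]
        exact h3
  have hA : AnalyticSet {p : (ℕ → Bool) × (ℕ → Bool) | E p.1 p.2} := by
    obtain ⟨B, g, hB, hg, hgr⟩ := hFA
    have hBs : StandardBorelSpace B := hB.standardBorel
    have h1 : AnalyticSet ((fun b => (e (g b).1, e (g b).2)) '' (Set.univ : Set B)) :=
      MeasurableSet.univ.analyticSet_image
        ((he.comp (measurable_fst.comp hg)).prodMk (he.comp (measurable_snd.comp hg)))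
    have h2 : AnalyticSet (Set.diagonal (ℕ → Bool)) := isClosed_diagonal.analyticSet
    have h3 : {p : (ℕ → Bool) × (ℕ → Bool) | E p.1 p.2} =
        Set.diagonal (ℕ → Bool) ∪ (fun b => (e (g b).1, e (g b).2)) '' (Set.univ : Set B) := by
      ext ⟨u, v⟩
      simp only [mem_ofPred_eq, mem_union, mem_diagonal_iff, mem_image, mem_univ, true_and,
        Prod.mk.injEq, E]
      refine or_congr Iff.rfl ⟨?_, ?_⟩
      · rintro ⟨x, y, h1, h2, h3⟩
        have : (x, y) ∈ Set.range g := by rw [hgr]; exact h3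
        obtain ⟨b, hb⟩ := this
        exact ⟨b, by rw [hb]; exact h1, by rw [hb]; exact h2⟩
      · rintro ⟨b, h1, h2⟩
        refine ⟨(g b).1, (g b).2, h1, h2, ?_⟩
        have : g b ∈ Set.range g := ⟨b, rfl⟩
        rw [hgr] at this
        exact this
    rw [h3, Set.union_eq_iUnion]
    refine AnalyticSet.iUnion fun b => ?_
    cases b
    · exact h1
    · exact h2
  obtain ⟨r, hr, hpc, hr1, hr2⟩ := cantor_case E hE hA
  refine ⟨fun x => ⟨r (e x), hC _ (hpc _).1 (hpc _).2⟩, (hr.comp he).subtype_mk, fun x y => ?_⟩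
  rw [hEF]
  exact ⟨fun h => h1 _ _ (hr1 _ _ h), fun h => hr2 _ _ (h2 _ _ h)⟩

end Pool.Agent.Y403.SI
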