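import Pool.Agent.Y403.SI.Walk

/-!
Analytic quasi-orders and embeddability of closed subgroups of `S_∞`.
-/

set_option autoImplicit false

open Set Filter Topology MeasureTheory TopologicalSpace

namespace Pool.Agent.Y403.SI

open Pool.Agent.Helper732.SInf

universe u

/-- `G` is topologically isomorphic to a closed subgroup of `H`. -/
def ClosedEmb (G H : ClosedSub) : Prop := ∃ K : ClosedSub, K.1 ≤ H.1 ∧ TopIso G K

/-- Every analytic quasi-order on a standard Borel space (in the universe `u`) is Borel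
reducible to `R`. -/
def QuasiOrderHard {Y : Type} [MeasurableSpace Y] (R : Y → Y → Prop) : Prop :=
  ∀ (X : Type u) [MeasurableSpace X] [StandardBorelSpace X] (F : X → X → Prop),
    (∀ x, F x x) → (∀ x y z, F x y → F y z → F x z) →
      IsAnalytic {p : X × X | F p.1 p.2} → BorelReducible F R

/-- the reduction is Borel -/
theorem measurable_HC_of (P : (ℕ → Bool) → Set Idx)
    (hP : ∀ p, MeasurableSet {x | p ∈ P x}) : Measurable fun x => HC (P x) := by
  refine measurable_generateFrom ?_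
  rintro _ ⟨U, hU, rfl⟩
  have : (fun x => HC (P x)) ⁻¹' {G : ClosedSub | ((G.1 : Set (Equiv.Perm ℕ)) ∩ U).Nonempty} =
      ⋃ g ∈ {g : GG | {p | g.1 p ≠ 0}.Finite ∧ toPerm g ∈ U}, ⋂ p ∈ {p | g.1 p ≠ 0}, {x | p ∈ P x} := by
    ext x
    simp only [mem_preimage, mem_ofPred_eq, mem_iUnion, mem_iInter, exists_prop]
    constructor
    · rintro ⟨σ, ⟨g, hg, rfl⟩, hσ⟩
      obtain ⟨S, hS⟩ := exists_finset hU hσ
      obtain ⟨i, hi⟩ := exists_lev S
      refine ⟨trunc i g, ⟨trunc_finite i g, ?_⟩, ?_⟩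
      · refine hS _ fun n hn => toPerm_eq_of_lev (hi n hn) (trunc_sub i g)
      · intro p hp
        by_contra hne
        exact hp (trunc_mem i hg p hne)
    · rintro ⟨g, ⟨-, hg2⟩, hg3⟩
      refine ⟨toPerm g, ⟨g, fun p hp => ?_, rfl⟩, hg2⟩
      by_contra hne
      exact hp (hg3 p hne)
  rw [this]
  refine MeasurableSet.biUnion (countable_fs.mono fun g hg => hg.1) fun g hg => ?_
  exact MeasurableSet.biInter hg.1.countable fun p _ => hP p

variable (f : (ℕ → ℕ) → (ℕ → Bool) × (ℕ → Bool))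

/-- the set of indices attached to `x` -/
def DX (x : ℕ → Bool) : Set Idx := {p | ∃ m, DReach f p.k (res p.k x) p.v m p.a}

theorem measurableSet_DX (p : Idx) : MeasurableSet {x | p ∈ DX f x} := by
  have : {x | p ∈ DX f x} = res p.k ⁻¹' {u | ∃ m, DReach f p.k u p.v m p.a} := rfl
  rw [this]
  exact measurable_res _ (Set.toFinite _).measurableSet

variable {f}

theorem up_mem_DX {γ : ℕ → ℕ} {x y : ℕ → Bool} (h : ∀ k, DEdge f k (res k x) (res k y) γ) {p : Idx}
    (hp : p ∈ DX f y) : up γ p ∈ DX f x := by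
  obtain ⟨m, hm⟩ := hp
  exact ⟨m + 1, DReach.cons (h p.k) hm⟩

theorem HH_mono {P Q : Set Idx} (h : P ⊆ Q) : HH P ≤ HH Q := by
  rintro _ ⟨g, hg, rfl⟩
  exact ⟨g, fun p hp => hg p fun h' => hp (h h'), rfl⟩

theorem topIso_up (γ : ℕ → ℕ) (P : Set Idx) : TopIso (HC P) (HC (up γ '' P)) := by
  let F : P ≃ (up γ '' P : Set Idx) := Equiv.Set.image (up γ) P (up_injective γ)
  have hF : ∀ p : P, (F p).1 = up γ p.1 := fun p => rfl
  refine topIso_of_good F (A γ) id (fun p => ⟨?_, fun i => ?_⟩) (fun q => ?_)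
  · rw [hF]; rfl
  · rw [hF]; exact le_refl _
  · obtain ⟨p, rfl⟩ := F.surjective q
    rw [F.symm_apply_apply]
    refine ⟨?_, fun i => ?_⟩
    · rw [hF]; rfl
    · rw [hF]
      exact p.1.mono (lt_A γ i).le

theorem closedEmb_of_rel (γ : ℕ → ℕ) : ClosedEmb (HC (DX f (f γ).2)) (HC (DX f (f γ).1)) := by
  have e1 : ∀ k, DEdge f k (res k (f γ).1) (res k (f γ).2) γ := fun k => ⟨rfl, rfl⟩
  refine ⟨HC (up γ '' DX f (f γ).2), ?_, topIso_up γ _⟩
  refine HH_mono ?_
  rintro _ ⟨p, hp, rfl⟩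
  exact up_mem_DX e1 hp

theorem root_mem_DX (k : ℕ) (x : ℕ → Bool) : root k x ∈ DX f x := ⟨0, DReach.nil _⟩

theorem dreach_cast {k k' : ℕ} {y x : ℕ → Bool} {v : Fin k' → Bool} {m : ℕ} {a : ℕ → ℕ}
    (h : (⟨k', v⟩ : Σ k, (Fin k → Bool)) = ⟨k, res k x⟩) (hR : DReach f k' (res k' y) v m a) :
    DReach f k (res k y) (res k x) m a := by
  cases h
  exact hR

/-- the image of the generator at a root -/
theorem index_of_hom {P Q : Set Idx} {x : ℕ → Bool} (T : GP P →+ GP Q)
    (hinj : Function.Injective T) (J : ℕ → ℕ)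
    (hJ : ∀ i, ∀ g : GP P, g.1 ∈ NN (J i) → (T g).1 ∈ NN i) (k : ℕ) (hk : 0 < k)
    (hroot : root k x ∈ P) :
    ∃ q ∈ Q, (⟨q.k, q.v⟩ : Σ k, (Fin k → Bool)) = ⟨k, res k x⟩ ∧ ∀ i, J i < k → q.a i ≤ J i := by
  classical
  set l := ell k (res k x) with hl
  have hlp : l.Prime := ell_prime _ _
  have hlk : 0 < l ^ k := pow_pos hlp.pos k
  -- the generator at the root
  let c : M := ((1 / (l ^ k : ℕ) : ℚ) : M)
  have hc : addOrderOf c = l ^ k := AddCircle.addOrderOf_period_div hlk
  let g0 : Idx → M := fun p => if p = root k x then c else 0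
  have hg0 : g0 ∈ GG := by
    constructor
    · intro p
      by_cases hp : p = root k x
      · subst hp
        simp only [g0, if_true]
        have : ell (root k x).k (root k x).v ^ (root k x).k = addOrderOf c := hc.symm
        rw [this, addOrderOf_nsmul_eq_zero]
      · simp [g0, hp]
    · intro i
      refine (Set.finite_singleton (root k x)).subset ?_
      intro p hp
      by_contra hne
      apply hp
      have : p ≠ root k x := hne
      simp [g0, this]
  have hg0P : (⟨g0, hg0⟩ : GG) ∈ GP P := by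
    intro p hp
    have : p ≠ root k x := by
      rintro rfl
      exact hp hroot
    simp [g0, this]
  let g : GP P := ⟨⟨g0, hg0⟩, hg0P⟩
  have hgval : ∀ p, g.1.1 p = if p = root k x then c else 0 := fun p => rfl
  have hsm : ∀ (n : ℕ) (g : GP P) p, (n • g).1.1 p = n • g.1.1 p := fun n g p => rfl
  have hsm' : ∀ (n : ℕ) (g : GP Q) p, (n • g).1.1 p = n • g.1.1 p := fun n g p => rfl
  have h1 : l ^ k • g = 0 := by
    apply Subtype.ext
    apply Subtype.ext
    funext p
    rw [hsm, hgval]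
    split_ifs
    · rw [← hc, addOrderOf_nsmul_eq_zero]; rfl
    · rw [smul_zero]; rfl
  have h2 : l ^ (k - 1) • g ≠ 0 := by
    intro h
    have h3 : (l ^ (k - 1) • g).1.1 (root k x) = 0 := by rw [h]; rfl
    rw [hsm, hgval, if_pos rfl] at h3
    have h4 := addOrderOf_dvd_of_nsmul_eq_zero h3
    rw [hc] at h4
    have h5 := Nat.le_of_dvd (pow_pos hlp.pos _) h4
    have h6 : l ^ (k - 1) < l ^ k := Nat.pow_lt_pow_right hlp.one_lt (by omega)
    omega
  have h1' : l ^ k • T g = 0 := by rw [← map_nsmul, h1, map_zero]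
  have h2' : l ^ (k - 1) • T g ≠ 0 := by
    rw [← map_nsmul]
    intro h
    exact h2 (hinj (h.trans (map_zero T).symm))
  obtain ⟨q, hq⟩ : ∃ q, l ^ (k - 1) • (T g).1.1 q ≠ 0 := by
    by_contra hne
    push Not at hne
    apply h2'
    apply Subtype.ext
    apply Subtype.ext
    funext q
    rw [hsm', hne q]; rfl
  have hqP : q ∈ Q := by
    by_contra hne
    apply hq
    rw [(T g).2 q hne, smul_zero]
  have hq1 : l ^ k • (T g).1.1 q = 0 := by
    rw [← hsm', h1']; rfl
  have hord : addOrderOf ((T g).1.1 q) = l ^ k := by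
    have h3 := addOrderOf_dvd_of_nsmul_eq_zero hq1
    obtain ⟨m, hm, hm'⟩ := (Nat.dvd_prime_pow hlp).1 h3
    rw [hm']
    congr 1
    by_contra hne
    apply hq
    apply addOrderOf_dvd_iff_nsmul_eq_zero.1
    rw [hm']
    exact pow_dvd_pow _ (by omega)
  have hell : ell q.k q.v = l := by
    have h3 := (T g).1.2.1 q
    have h4 := addOrderOf_dvd_of_nsmul_eq_zero h3
    rw [hord] at h4
    have h5 : l ∣ ell q.k q.v ^ q.k := (dvd_pow_self l (by omega)).trans h4
    have h6 := hlp.dvd_of_dvd_pow h5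
    exact ((Nat.prime_dvd_prime_iff_eq hlp (ell_prime _ _)).1 h6).symm
  have htype := ell_inj (hell.trans hl)
  have hqk : q.k = k := congrArg Sigma.fst htype
  refine ⟨q, hqP, htype, fun i hi => ?_⟩
  -- the bound
  have h3 : (l ^ J i • g).1 ∈ NN (J i) := by
    intro p
    rw [hsm, hgval]
    split_ifs with hp
    · subst hp
      have : (root k x).q (J i) = l ^ (k - J i) := by
        have : (root k x).a (J i) = J i := by simp only [root]; omega
        simp only [Idx.q, this]
        rfl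
      rw [this, ← mul_smul, ← pow_add, show k - J i + J i = k by omega, ← hc,
        addOrderOf_nsmul_eq_zero]
    · rw [smul_zero, smul_zero]
  have h4 := hJ i _ h3 q
  rw [map_nsmul, hsm', ← mul_smul] at h4
  have h5 := addOrderOf_dvd_of_nsmul_eq_zero h4
  rw [hord] at h5
  have h6 : q.q i = l ^ (k - q.a i) := by
    unfold Idx.q
    rw [hell, hqk]
  rw [h6, ← pow_add] at h5
  have h7 := (Nat.pow_dvd_pow_iff_le_right hlp.one_lt).1 h5
  have h8 := q.le i
  rw [hqk] at h8
  omega

theorem rel_of_contInj_DX (hf : Continuous f)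
    (E : (ℕ → Bool) → (ℕ → Bool) → Prop) (hrefl : ∀ x, E x x)
    (htrans : ∀ x y z, E x y → E y z → E x z)
    (hfE : ∀ γ, E (f γ).1 (f γ).2) {x y : ℕ → Bool} (h : ContInj (HC (DX f x)) (HC (DX f y))) :
    E y x := by
  obtain ⟨T, hinj, hT⟩ := of_contInj h
  choose J hJ using hT
  refine dlimit hf E hrefl htrans hfE J x y fun k hk => ?_
  obtain ⟨q, ⟨m, hm⟩, htype, hb⟩ := index_of_hom T hinj J hJ k (by omega) (root_mem_DX k x)
  exact ⟨m, q.a, dreach_cast htype hm, hb⟩

theorem cantor_case_quasi (E : (ℕ → Bool) → (ℕ → Bool) → Prop) (hrefl : ∀ x, E x x)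
    (htrans : ∀ x y z, E x y → E y z → E x z)
    (hA : AnalyticSet {p : (ℕ → Bool) × (ℕ → Bool) | E p.1 p.2}) :
    ∃ r : (ℕ → Bool) → ClosedSub, Measurable r ∧ (∀ x, IsAbelian (r x) ∧ IsTopTorsion (r x)) ∧
      (∀ x y, E x y → ClosedEmb (r y) (r x)) ∧ ∀ x y, ContInj (r y) (r x) → E x y := by
  rw [AnalyticSet] at hA
  rcases hA with h | ⟨f, hf, hr⟩
  · exfalso
    have : ((fun _ => true, fun _ => true) : (ℕ → Bool) × (ℕ → Bool)) ∈
        {p : (ℕ → Bool) × (ℕ → Bool) | E p.1 p.2} := hrefl _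
    rw [h] at this
    exact this
  · have hfE : ∀ γ, E (f γ).1 (f γ).2 := by
      intro γ
      have : f γ ∈ {p : (ℕ → Bool) × (ℕ → Bool) | E p.1 p.2} := by
        rw [← hr]; exact ⟨γ, rfl⟩
      exact this
    refine ⟨fun x => HC (DX f x), measurable_HC_of _ (measurableSet_DX f),
      fun x => ⟨isAbelian_HC _, isTopTorsion_HC _⟩, fun x y hxy => ?_, fun x y h => ?_⟩
    · have : (x, y) ∈ Set.range f := by rw [hr]; exact hxy
      obtain ⟨γ, hγ⟩ := this
      have h := closedEmb_of_rel (f := f) γ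
      rw [hγ] at h
      exact h
    · exact rel_of_contInj_DX hf E hrefl htrans hfE h

/-- Every relation between closed embeddability and continuous injectability is hard for
analytic quasi-orders, on every class which contains the abelian topologically torsion closed
subgroups. -/
theorem quasiOrderHard_of_between (C : Set ClosedSub)
    (hC : ∀ G, IsAbelian G → IsTopTorsion G → G ∈ C)
    (R : {G : ClosedSub // G ∈ C} → {G : ClosedSub // G ∈ C} → Prop)
    (h1 : ∀ G H, ClosedEmb G.1 H.1 → R G H) (h2 : ∀ G H, R G H → ContInj G.1 H.1) :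
    QuasiOrderHard.{u} R := by
  intro X _ _ F hrefl htrans hFA
  obtain ⟨e, he, hinj⟩ := MeasurableSpace.measurable_injection_nat_bool_of_countablySeparated X
  let E : (ℕ → Bool) → (ℕ → Bool) → Prop := fun u v => u = v ∨ ∃ x y, e x = u ∧ e y = v ∧ F y x
  have hErefl : ∀ u, E u u := fun u => Or.inl rfl
  have hEtrans : ∀ u v w, E u v → E v w → E u w := by
    rintro u v w (rfl | ⟨x, y, h1, h2, h3⟩) (rfl | ⟨x', y', h1', h2', h3'⟩)
    · exact Or.inl rfl
    · exact Or.inr ⟨x', y', h1', h2', h3'⟩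
    · exact Or.inr ⟨x, y, h1, h2, h3⟩
    · have : y = x' := hinj (h2.trans h1'.symm)
      subst this
      exact Or.inr ⟨x, y', h1, h2', htrans _ _ _ h3' h3⟩
  have hEF : ∀ x y, F x y ↔ E (e y) (e x) := by
    intro x y
    constructor
    · intro h
      exact Or.inr ⟨y, x, rfl, rfl, h⟩
    · rintro (h | ⟨y', x', h1, h2, h3⟩)
      · rw [hinj h]
        exact hrefl _
      · rw [← hinj h1, ← hinj h2]
        exact h3
  have hA : AnalyticSet {p : (ℕ → Bool) × (ℕ → Bool) | E p.1 p.2} := by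
    obtain ⟨B, g, hB, hg, hgr⟩ := hFA
    have hBs : StandardBorelSpace B := hB.standardBorel
    have h1 : AnalyticSet ((fun b => (e (g b).2, e (g b).1)) '' (Set.univ : Set B)) :=
      MeasurableSet.univ.analyticSet_image
        ((he.comp (measurable_snd.comp hg)).prodMk (he.comp (measurable_fst.comp hg)))
    have h2 : AnalyticSet (Set.diagonal (ℕ → Bool)) := isClosed_diagonal.analyticSet
    have h3 : {p : (ℕ → Bool) × (ℕ → Bool) | E p.1 p.2} =
        Set.diagonal (ℕ → Bool) ∪ (fun b => (e (g b).2, e (g b).1)) '' (Set.univ : Set B) := by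
      ext ⟨u, v⟩
      simp only [mem_ofPred_eq, mem_union, mem_diagonal_iff, mem_image, mem_univ, true_and,
        Prod.mk.injEq, E]
      refine or_congr Iff.rfl ⟨?_, ?_⟩
      · rintro ⟨x, y, h1, h2, h3⟩
        have : (y, x) ∈ Set.range g := by rw [hgr]; exact h3
        obtain ⟨b, hb⟩ := this
        exact ⟨b, by rw [hb]; exact h1, by rw [hb]; exact h2⟩
      · rintro ⟨b, h1, h2⟩
        refine ⟨(g b).2, (g b).1, h1, h2, ?_⟩
        have : g b ∈ Set.range g := ⟨b, rfl⟩
        rw [hgr] at this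
        exact this
    rw [h3, Set.union_eq_iUnion]
    refine AnalyticSet.iUnion fun b => ?_
    cases b
    · exact h1
    · exact h2
  obtain ⟨r, hr, hpc, hr1, hr2⟩ := cantor_case_quasi E hErefl hEtrans hA
  refine ⟨fun x => ⟨r (e x), hC _ (hpc _).1 (hpc _).2⟩, (hr.comp he).subtype_mk, fun x y => ?_⟩
  rw [hEF]
  exact ⟨fun h => h1 _ _ (hr1 _ _ h), fun h => hr2 _ _ (h2 _ _ h)⟩

end Pool.Agent.Y403.SI
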