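import Pool.Agent.Y403.SI.Inj

/-!
Directed walks (after `Helper732/SInf/Walk`, which has undirected walks).
-/

set_option autoImplicit false

open Set Filter Topology

namespace Pool.Agent.Y403.SI

open Pool.Agent.Helper732.SInf (A A_zero A_succ A_mono lt_A le_A res)

variable (f : (ℕ → ℕ) → (ℕ → Bool) × (ℕ → Bool))

/-- `γ` witnesses an edge between the words `u` and `w` of length `k` -/
def DEdge (k : ℕ) (u w : Fin k → Bool) (γ : ℕ → ℕ) : Prop :=
  res k (f γ).1 = u ∧ res k (f γ).2 = w

/-- walks at stage `k`, with length and closeness function -/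
inductive DReach (k : ℕ) : (Fin k → Bool) → (Fin k → Bool) → ℕ → (ℕ → ℕ) → Prop
  | nil (u : Fin k → Bool) : DReach k u u 0 (fun i => min i k)
  | cons {u w v : Fin k → Bool} {m : ℕ} {a : ℕ → ℕ} {γ : ℕ → ℕ} (he : DEdge f k u w γ)
      (h : DReach k w v m a) : DReach k u v (m + 1) (fun i => a (A γ i))

variable {f}

theorem DReach.mono {k : ℕ} {u v : Fin k → Bool} {m : ℕ} {a : ℕ → ℕ} (h : DReach f k u v m a) :
    Monotone a := by
  induction h with
  | nil u => exact fun i j hij => by simp only []; omega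
  | cons he h ih => exact fun i j hij => ih (A_mono _ hij)

theorem DReach.le {k : ℕ} {u v : Fin k → Bool} {m : ℕ} {a : ℕ → ℕ} (h : DReach f k u v m a) :
    ∀ i, a i ≤ k := by
  induction h with
  | nil u => exact fun i => min_le_right _ _
  | cons he h ih => exact fun i => ih _

theorem DReach.ge {k : ℕ} {u v : Fin k → Bool} {m : ℕ} {a : ℕ → ℕ} (h : DReach f k u v m a) :
    ∀ i, min (i + m) k ≤ a i := by
  induction h with
  | nil u => exact fun i => le_refl _
  | @cons u w v m a γ he h ih =>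
    intro i
    refine le_trans ?_ (ih (A γ i))
    have := lt_A γ i
    omega

theorem DReach.big {k : ℕ} {u v : Fin k → Bool} {m : ℕ} {a : ℕ → ℕ} (h : DReach f k u v m a) :
    ∀ i, k ≤ i → a i = k := by
  intro i hi
  have h1 := h.le i
  have h2 := h.ge i
  omega

theorem reach_zero_inv {k : ℕ} {u v : Fin k → Bool} {m : ℕ} {a : ℕ → ℕ} (h : DReach f k u v m a)
    (hm : m = 0) : u = v := by
  cases h with
  | nil => rfl
  | cons => omega

theorem reach_succ_inv {k : ℕ} {u v : Fin k → Bool} {m n : ℕ} {a : ℕ → ℕ} (h : DReach f k u v n a)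
    (hm : n = m + 1) : ∃ (w : Fin k → Bool) (γ : ℕ → ℕ) (a' : ℕ → ℕ),
      DEdge f k u w γ ∧ DReach f k w v m a' ∧ a = fun i => a' (A γ i) := by
  cases h with
  | nil => omega
  | @cons _ w _ m' a' γ he h =>
    have : m' = m := by omega
    subst this
    exact ⟨w, γ, a', he, h, rfl⟩

/-- the main compactness argument -/
theorem dlimit_step (hf : Continuous f) (E : (ℕ → Bool) → (ℕ → Bool) → Prop) (hrefl : ∀ x, E x x)
    (htrans : ∀ x y z, E x y → E y z → E x z)
    (hfE : ∀ γ, E (f γ).1 (f γ).2) (U : Ultrafilter ℕ) (hU : ∀ n, ∀ᶠ k in (U : Filter ℕ), n < k)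
    (J : ℕ → ℕ) (x : ℕ → Bool) (v : ∀ k, Fin k → Bool)
    (hv : ∀ n, ∀ᶠ k in (U : Filter ℕ), ∀ i : Fin k, (i : ℕ) < n → v k i = x i) (m : ℕ) :
    ∀ (y : ℕ → Bool) (u : ∀ k, Fin k → Bool) (a : ℕ → ℕ → ℕ),
      (∀ n, ∀ᶠ k in (U : Filter ℕ), ∀ i : Fin k, (i : ℕ) < n → u k i = y i) →
      (∀ i, ∀ᶠ k in (U : Filter ℕ), a k i ≤ J i) →
      (∀ᶠ k in (U : Filter ℕ), DReach f k (u k) (v k) m (a k)) → E y x := by
  induction m with
  | zero =>
    intro y u a hu ha hR
    have : y = x := by
      funext n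
      have h1 : ∀ᶠ k in (U : Filter ℕ), y n = x n := by
        filter_upwards [hu (n+1), hv (n+1), hR, hU n] with k h1 h2 h3 h4
        have h5 : u k = v k := reach_zero_inv h3 rfl
        rw [← h1 ⟨n, h4⟩ (by simp), ← h2 ⟨n, h4⟩ (by simp), h5]
      exact h1.exists.choose_spec
    subst this
    exact hrefl _
  | succ m ih =>
    intro y u a hu ha hR
    -- split off the first step
    have hstep : ∀ k, ∃ (w : Fin k → Bool) (γ : ℕ → ℕ) (a' : ℕ → ℕ),
        DReach f k (u k) (v k) (m+1) (a k) →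
          DEdge f k (u k) w γ ∧ DReach f k w (v k) m a' ∧ a k = fun i => a' (A γ i) := by
      intro k
      by_cases h : DReach f k (u k) (v k) (m+1) (a k)
      · obtain ⟨w, γ, a', h'⟩ := reach_succ_inv h rfl
        exact ⟨w, γ, a', fun _ => h'⟩
      · exact ⟨u k, 0, a k, fun h' => absurd h' h⟩
    choose w γ a' hw using hstep
    have hw' : ∀ᶠ k in (U : Filter ℕ), DEdge f k (u k) (w k) (γ k) ∧ DReach f k (w k) (v k) m (a' k) ∧
        a k = fun i => a' k (A (γ k) i) := hR.mono fun k hk => hw k hk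
    -- bounds
    have hAle : ∀ i, ∀ᶠ k in (U : Filter ℕ), A (γ k) i ≤ J i := by
      intro i
      filter_upwards [hw', ha i, hU (J i)] with k h1 h2 h3
      have h4 := h1.2.1.ge (A (γ k) i)
      have h5 : a k i = a' k (A (γ k) i) := by rw [h1.2.2]
      omega
    have ha' : ∀ i, ∀ᶠ k in (U : Filter ℕ), a' k i ≤ J i := by
      intro i
      filter_upwards [hw', ha i] with k h1 h2
      have h5 : a k i = a' k (A (γ k) i) := by rw [h1.2.2]
      have := h1.2.1.mono (lt_A (γ k) i).le
      omega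
    -- the limit of `γ k`
    have hγlim : ∀ i, ∃ c, ∀ᶠ k in (U : Filter ℕ), γ k i = c := by
      intro i
      have h1 : ∀ᶠ k in (U : Filter ℕ), ∃ c ∈ Finset.range (J i + 1), γ k i = c := by
        filter_upwards [hAle i] with k hk
        refine ⟨γ k i, ?_, rfl⟩
        have := le_A (γ k) i
        simp only [Finset.mem_range]; omega
      have h2 := (Ultrafilter.eventually_exists_mem_iff (f := U) (Finset.finite_toSet _)).1 h1
      obtain ⟨c, -, hc⟩ := h2
      exact ⟨c, hc⟩
    choose γ0 hγ0 using hγlim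
    have hwlim : ∀ i, ∃ c, ∀ᶠ k in (U : Filter ℕ), ∀ h : i < k, w k ⟨i, h⟩ = c := by
      intro i
      have h1 : ∀ᶠ k in (U : Filter ℕ), (∀ h : i < k, w k ⟨i, h⟩ = true) ∨
          (∀ h : i < k, w k ⟨i, h⟩ = false) := by
        filter_upwards [hU i] with k hk
        cases hwk : w k ⟨i, hk⟩
        · exact Or.inr fun _ => hwk
        · exact Or.inl fun _ => hwk
      rcases Ultrafilter.eventually_or.1 h1 with h | h
      · exact ⟨true, h⟩
      · exact ⟨false, h⟩
    choose z hz using hwlim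
    have hzn : ∀ n, ∀ᶠ k in (U : Filter ℕ), ∀ i : Fin k, (i : ℕ) < n → w k i = z i := by
      intro n
      have h1 : ∀ᶠ k in (U : Filter ℕ), ∀ i ∈ Finset.range n, ∀ h : i < k, w k ⟨i, h⟩ = z i := by
        rw [Filter.eventually_all_finset]
        intro i _
        exact hz i
      filter_upwards [h1] with k hk i hi
      exact hk i (Finset.mem_range.2 hi) i.2
    -- convergence
    have hlim : Tendsto γ (U : Filter ℕ) (𝓝 γ0) := by
      rw [tendsto_pi_nhds]
      intro i
      refine tendsto_const_nhds.congr' ?_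
      filter_upwards [hγ0 i] with k hk using hk.symm
    have hflim := (hf.tendsto γ0).comp hlim
    have hf1 : ∀ i, ∀ᶠ k in (U : Filter ℕ), (f (γ k)).1 i = (f γ0).1 i := by
      intro i
      have h1 : Tendsto (fun k => (f (γ k)).1 i) (U : Filter ℕ) (𝓝 ((f γ0).1 i)) :=
        ((continuous_apply i).comp continuous_fst).continuousAt.tendsto.comp hflim
      rw [nhds_discrete] at h1
      simpa using h1
    have hf2 : ∀ i, ∀ᶠ k in (U : Filter ℕ), (f (γ k)).2 i = (f γ0).2 i := by
      intro i
      have h1 : Tendsto (fun k => (f (γ k)).2 i) (U : Filter ℕ) (𝓝 ((f γ0).2 i)) :=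
        ((continuous_apply i).comp continuous_snd).continuousAt.tendsto.comp hflim
      rw [nhds_discrete] at h1
      simpa using h1
    have hyz : E y z := by
      have h : ∀ᶠ k in (U : Filter ℕ), res k (f (γ k)).1 = u k ∧ res k (f (γ k)).2 = w k :=
        hw'.mono fun k hk => hk.1
      have e1 : (f γ0).1 = y := by
        funext n
        have : ∀ᶠ k in (U : Filter ℕ), (f γ0).1 n = y n := by
          filter_upwards [h, hf1 n, hu (n+1), hU n] with k h1 h2 h3 h4
          rw [← h2, ← h3 ⟨n, h4⟩ (by simp), ← h1.1]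
          rfl
        exact this.exists.choose_spec
      have e2 : (f γ0).2 = z := by
        funext n
        have : ∀ᶠ k in (U : Filter ℕ), (f γ0).2 n = z n := by
          filter_upwards [h, hf2 n, hzn (n+1), hU n] with k h1 h2 h3 h4
          rw [← h2, ← h3 ⟨n, h4⟩ (by simp), ← h1.2]
          rfl
        exact this.exists.choose_spec
      rw [← e1, ← e2]
      exact hfE γ0
    exact htrans _ _ _ hyz (ih z w a' hzn ha' (hw'.mono fun k hk => hk.2.1))

/-- If `res k y` reaches `res k x` with uniformly bounded closeness functions, then `E y x`. -/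
theorem dlimit (hf : Continuous f) (E : (ℕ → Bool) → (ℕ → Bool) → Prop) (hrefl : ∀ x, E x x)
    (htrans : ∀ x y z, E x y → E y z → E x z)
    (hfE : ∀ γ, E (f γ).1 (f γ).2) (J : ℕ → ℕ) (x y : ℕ → Bool)
    (h : ∀ k, J 0 < k → ∃ m a, DReach f k (res k y) (res k x) m a ∧ ∀ i, J i < k → a i ≤ J i) :
    E y x := by
  let U : Ultrafilter ℕ := Filter.hyperfilter ℕ
  have hU : ∀ n, ∀ᶠ k in (U : Filter ℕ), n < k := by
    intro n
    have : (U : Filter ℕ) ≤ atTop := Nat.hyperfilter_le_atTop
    exact (eventually_gt_atTop n).filter_mono this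
  have hch : ∀ k, ∃ m a, J 0 < k → DReach f k (res k y) (res k x) m a ∧ ∀ i, J i < k → a i ≤ J i := by
    intro k
    by_cases hk : J 0 < k
    · obtain ⟨m, a, h'⟩ := h k hk
      exact ⟨m, a, fun _ => h'⟩
    · exact ⟨0, fun _ => 0, fun h' => absurd h' hk⟩
  choose m a hma using hch
  have h1 : ∀ᶠ k in (U : Filter ℕ), ∃ c ∈ Finset.range (J 0 + 1), m k = c := by
    filter_upwards [hU (J 0)] with k hk
    refine ⟨m k, ?_, rfl⟩
    have h2 := (hma k hk).1.ge 0
    have h3 := (hma k hk).2 0 hk
    simp only [Finset.mem_range]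
    omega
  obtain ⟨c, -, hc⟩ := (Ultrafilter.eventually_exists_mem_iff (f := U) (Finset.finite_toSet _)).1 h1
  refine dlimit_step hf E hrefl htrans hfE U hU J x (fun k => res k x) (fun n => Eventually.of_forall
    fun k i _ => rfl) c y (fun k => res k y) a (fun n => Eventually.of_forall fun k i _ => rfl) ?_ ?_
  · intro i
    filter_upwards [hU (J 0), hU (J i)] with k h2 h3 using (hma k h2).2 i h3
  · filter_upwards [hU (J 0), hc] with k h2 h3
    rw [← h3]
    exact (hma k h2).1

end Pool.Agent.Y403.SI
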